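import Mathlib
import Pool.Agent.TH444.OR.Fin

/-!
# Infinite resolvability of topological groups with regular, not strong limit dispersion character

Partial answer to Q2 of MP_008583_gt.

Let `G` be a topological group and `U₀` a nonempty open set of least cardinality, so that
`#U₀` is the dispersion character of `G`. If `#U₀` is regular, uncountable and not a strong limit
(for instance any successor cardinal above `ℵ₀`), then `G` splits into infinitely many pairwise
disjoint dense subsets.
-/

open Cardinal Set Topology

namespace Pool.Agent.Results.MP_008583_gt.RegularDispersionQ2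

universe u

theorem result (G : Type u) [Group G] [TopologicalSpace G] [IsTopologicalGroup G] (U₀ : Set G)
    (hopen : IsOpen U₀) (hne : U₀.Nonempty)
    (hmin : ∀ U : Set G, IsOpen U → U.Nonempty → #U₀ ≤ #U)
    (hreg : (#U₀).IsRegular) (hunc : ℵ₀ < #U₀) (hlim : ∃ l < #U₀, #U₀ ≤ 2 ^ l) :
    ∃ D : ℕ → Set G, Pairwise (fun i j => Disjoint (D i) (D j)) ∧ ⋃ i, D i = Set.univ ∧
      ∀ i, Dense (D i) :=
  TH444.OR.exists_partition_dispersion U₀ hopen hne hmin hreg hunc hlim

end Pool.Agent.Results.MP_008583_gt.RegularDispersionQ2
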